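import Pool.Agent.W670.ML.Defs2

set_option autoImplicit false

namespace Pool.Agent.W181.ML2

open NumberField nonZeroDivisors

theorem db : Pool.Agent.W670.ML.S_DB := by
  intro K B _ _ _ _ _
  have hflat : Module.Flat (𝓞 K) (𝓞 B) := inferInstance
  have hfin : Module.Finite (𝓞 K) (𝓞 B) := inferInstance
  have hfp : Module.FinitePresentation (𝓞 K) (𝓞 B) := Module.finitePresentation_of_finite _ _
  have hproj : Module.Projective (𝓞 K) (𝓞 B) := Module.Flat.projective_of_finitePresentation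
  obtain ⟨s, f, g, _, _, hfg⟩ := Module.Finite.exists_comp_eq_id_of_projective (𝓞 K) (𝓞 B)
  -- localisation
  have hloc : IsLocalization (Algebra.algebraMapSubmonoid (𝓞 B) (𝓞 K)⁰) B :=
    IsIntegralClosure.isLocalization (𝓞 K) K B (𝓞 B)
  have hlm : IsLocalizedModule (𝓞 K)⁰ (IsScalarTower.toAlgHom (𝓞 K) (𝓞 B) B).toLinearMap :=
    isLocalizedModule_iff_isLocalization.mpr hloc
  let φ : Fin s → (B →ₗ[K] K) := fun j =>
    IsLocalizedModule.mapExtendScalars (𝓞 K)⁰
      (IsScalarTower.toAlgHom (𝓞 K) (𝓞 B) B).toLinearMap (Algebra.linearMap (𝓞 K) K) K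
      ((LinearMap.proj j).comp g)
  have hφ : ∀ j, ∀ y : 𝓞 B, φ j (algebraMap (𝓞 B) B y) = algebraMap (𝓞 K) K (g y j) := by
    intro j y
    exact IsLocalizedModule.map_apply (𝓞 K)⁰
      (IsScalarTower.toAlgHom (𝓞 K) (𝓞 B) B).toLinearMap (Algebra.linearMap (𝓞 K) K)
      ((LinearMap.proj j).comp g) y
  have hnd : (Algebra.traceForm K B).Nondegenerate := traceForm_nondegenerate K B
  let γ : Fin s → B := fun j => (LinearMap.BilinForm.toDual (Algebra.traceForm K B) hnd).symm (φ j)
  have hγ : ∀ j, ∀ y : B, Algebra.trace K B (γ j * y) = φ j y := by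
    intro j y
    have := LinearMap.BilinForm.apply_toDual_symm_apply (hB := hnd) (f := φ j) (v := y)
    rw [← this, Algebra.traceForm_apply]
  let β : Fin s → B := fun j => algebraMap (𝓞 B) B (f (Pi.single j 1))
  have hint : ∀ y : 𝓞 B, algebraMap (𝓞 B) B y =
      ∑ j, Algebra.trace K B (γ j * algebraMap (𝓞 B) B y) • β j := by
    intro y
    have h1 : f (g y) = y := by
      have := LinearMap.congr_fun hfg y
      simpa using this
    have h2 : g y = ∑ j, (g y j) • (Pi.single j 1 : Fin s → 𝓞 K) := by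
      conv_lhs => rw [pi_eq_sum_univ' (g y)]
    conv_lhs => rw [← h1, h2, map_sum, map_sum]
    refine Finset.sum_congr rfl fun j _ => ?_
    rw [hγ, hφ, map_smul, Algebra.smul_def, map_mul, Algebra.smul_def,
      ← IsScalarTower.algebraMap_apply (𝓞 K) (𝓞 B) B, ← IsScalarTower.algebraMap_apply (𝓞 K) K B]
  refine ⟨s, β, γ, fun j => (f (Pi.single j 1)).isIntegral_coe, ?_, ?_⟩
  · intro j y hy
    rw [hγ]
    have : y = algebraMap (𝓞 B) B ⟨y, hy⟩ := rfl
    rw [this, hφ]
    exact (g _ j).isIntegral_coe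
  · intro y
    have halg : IsAlgebraic ℤ y :=
      (IsFractionRing.isAlgebraic_iff ℤ ℚ B).mpr (Algebra.IsAlgebraic.isAlgebraic y)
    obtain ⟨n, hn, hny⟩ := halg.exists_integral_multiple
    have h1 := hint ⟨n • y, hny⟩
    have h2 : algebraMap (𝓞 B) B ⟨n • y, hny⟩ = n • y := rfl
    rw [h2] at h1
    have h3 : n • y = n • ∑ j, Algebra.trace K B (γ j * y) • β j := by
      rw [Finset.smul_sum]
      conv_lhs => rw [h1]
      refine Finset.sum_congr rfl fun j _ => ?_
      rw [mul_smul_comm, map_zsmul, smul_assoc]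
    exact smul_right_injective B hn h3

end Pool.Agent.W181.ML2
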